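import Pool.Agent.helper74.TG.Defs
import Pool.Agent.helper85.BVP.Dual

/-!
# TG (MP_d11331_al), va:1: geometric sums
-/

namespace Pool.Agent.helper74.TG

open Finset ArithmeticFunction

theorem h85_ee_eq (x : ℝ) : ee x = Pool.Agent.helper85.BVP.ex x := by
  unfold ee Pool.Agent.helper85.BVP.ex
  congr 1
  push_cast
  ring

theorem h85_norm_ee (x : ℝ) : ‖ee x‖ = 1 := by
  rw [h85_ee_eq, Pool.Agent.helper85.BVP.norm_ex]

theorem h85_ee_add (x y : ℝ) : ee (x + y) = ee x * ee y := by
  rw [h85_ee_eq, h85_ee_eq, h85_ee_eq, Pool.Agent.helper85.BVP.ex_add]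

theorem h85_ee_neg (x : ℝ) : ee (-x) = (starRingEnd ℂ) (ee x) := by
  rw [h85_ee_eq, h85_ee_eq, Pool.Agent.helper85.BVP.conj_ex]

theorem h85_ee_zero : ee 0 = 1 := by
  rw [h85_ee_eq, Pool.Agent.helper85.BVP.ex_zero]

/-- the geometric sum over an interval -/
theorem geom_bound (a b : ℕ) (h : a ≤ b) (β : ℝ) :
    ‖∑ n ∈ Ioc a b, ee (n * β)‖ ≤ gb (b - a) β := by
  have hcard : ‖∑ n ∈ Ioc a b, ee (n * β)‖ ≤ (b : ℝ) - a := by
    refine (norm_sum_le _ _).trans ?_
    simp only [h85_norm_ee, sum_const, Nat.card_Ioc, nsmul_eq_mul, mul_one]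
    rw [Nat.cast_sub h]
  unfold gb
  split_ifs with h1
  · exact hcard
  · have hsd : Pool.Agent.helper85.BVP.sd β ≠ 0 := by
      intro h0
      apply h1
      have : |β - round β| = 0 := by
        have h2 : β - round β = 0 := h0
        rw [h2, abs_zero]
      rw [this]
      norm_num
    have e : ∑ n ∈ Ioc a b, ee (n * β) =
        ee ((a + 1 : ℕ) * β) * ∑ u ∈ range (b - a), Pool.Agent.helper85.BVP.ex (u * β) := by
      rw [mul_sum]
      have h2 : Ioc a b = (range (b - a)).image (fun u => u + (a + 1)) := by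
        ext n
        simp only [mem_Ioc, mem_image, mem_range]
        constructor
        · intro hn
          exact ⟨n - (a + 1), by omega, by omega⟩
        · rintro ⟨u, hu, rfl⟩
          omega
      rw [h2, sum_image (by intro x _ y _ hxy; simpa using hxy)]
      refine sum_congr rfl fun u _ => ?_
      rw [h85_ee_eq, h85_ee_eq, ← Pool.Agent.helper85.BVP.ex_add]
      congr 1
      push_cast
      ring
    rw [e, norm_mul, h85_norm_ee, one_mul]
    have h3 := Pool.Agent.helper85.BVP.norm_geom_le (b - a) β hsd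
    exact h3

set_option linter.unusedVariables false in
/-- monotonicity of the bound -/
theorem gb_mono (X Y β : ℝ) (h : X ≤ Y) (hX : 0 ≤ X) : gb X β ≤ gb Y β := by
  unfold gb
  have h0 : 0 ≤ |β - round β| := abs_nonneg _
  split_ifs with h1 h2 h2
  · exact h
  · have hp : 0 < |β - round β| := by
      by_contra hn
      have : |β - round β| = 0 := le_antisymm (not_lt.mp hn) h0
      apply h2
      rw [this]
      norm_num
    rw [le_div_iff₀ (by positivity)]
    nlinarith
  · exfalso
    apply h1
    have : 2 * |β - round β| * X ≤ 2 * |β - round β| * Y :=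
      mul_le_mul_of_nonneg_left h (by positivity)
    linarith
  · exact le_rfl

end Pool.Agent.helper74.TG
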