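import Pool.Agent.helper85.TG.VA3
import Pool.Agent.helper85.BVP.Boxes

/-!
# TG (MP_d11331_al), va:4: the bound of Vinogradov and Vaughan on the minor arcs
-/

namespace Pool.Agent.helper74.TG

open Finset ArithmeticFunction Pool.Agent.helper85.BVP

/-- weighted sum of a Dirichlet convolution, complex weights. -/
private lemma convC (f g : ArithmeticFunction ℝ) (w : ℕ → ℂ) (x : ℕ) :
    ∑ n ∈ Ioc 0 x, (((f * g) n : ℝ) : ℂ) * w n
      = ∑ a ∈ Ioc 0 x, (f a : ℂ) * ∑ b ∈ Ioc 0 (x / a), (g b : ℂ) * w (a * b) := by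
  have h1 : ∑ n ∈ Ioc 0 x, (((f * g) n : ℝ) : ℂ) * w n
      = ∑ p ∈ Ioc 0 x ×ˢ Ioc 0 x with p.1 * p.2 ≤ x, (f p.1 : ℂ) * g p.2 * w (p.1 * p.2) := by
    simp only [mul_apply]
    trans ∑ n ∈ Ioc 0 x, ∑ p ∈ Ioc 0 x ×ˢ Ioc 0 x with p.1 * p.2 = n,
      (f p.1 : ℂ) * g p.2 * w (p.1 * p.2)
    · refine sum_congr rfl fun n hn ↦ ?_
      simp only [mem_Ioc] at hn
      rw [Nat.divisorsAntidiagonal_eq_prod_filter_of_le hn.1.ne' hn.2]
      push_cast
      rw [sum_mul]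
      refine sum_congr rfl fun p hp => ?_
      rw [(mem_filter.mp hp).2]
    · simp_rw [sum_filter]
      rw [sum_comm]
      exact sum_congr rfl fun _ _ ↦ (by simp_all)
  rw [h1, sum_filter, sum_product]
  refine sum_congr rfl fun n hn ↦ ?_
  rw [mem_Ioc] at hn
  rw [← sum_filter, mul_sum]
  have h2 : (Ioc 0 x).filter (fun m => n * m ≤ x) = Ioc 0 (x / n) := by
    ext m
    rw [mem_filter, mem_Ioc, mem_Ioc, Nat.le_div_iff_mul_le hn.1]
    constructor
    · rintro ⟨⟨h1, h2⟩, h3⟩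
      exact ⟨h1, by rw [mul_comm]; exact h3⟩
    · rintro ⟨h1, h2⟩
      have h3 : n * m ≤ x := by rw [mul_comm]; exact h2
      exact ⟨⟨h1, (Nat.le_mul_of_pos_left m hn.1).trans h3⟩, h3⟩
  rw [h2]
  exact sum_congr rfl fun m _ => by ring

/-- partial summation -/
private lemma abelC (g : ℕ → ℝ) (κ : ℕ → ℂ) (hg : Monotone g) (hg0 : 0 ≤ g 0) (B : ℝ) (Y : ℕ)
    (hB : ∀ y ≤ Y, ‖∑ k ∈ Ioc 0 y, κ k‖ ≤ B) :
    ‖∑ k ∈ Ioc 0 Y, (g k : ℂ) * κ k‖ ≤ 2 * B * g Y := by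
  have hB0 : 0 ≤ B := (norm_nonneg _).trans (hB 0 (Nat.zero_le _))
  have key : ∀ y : ℕ, y ≤ Y → ‖∑ k ∈ Ioc 0 y, (g k : ℂ) * κ k - g y * ∑ k ∈ Ioc 0 y, κ k‖ ≤
      B * (g y - g 0) := by
    intro y
    induction y with
    | zero => intro _; simp
    | succ y ih =>
      intro hy
      have ih' := ih (by omega)
      rw [sum_Ioc_succ_top (Nat.zero_le y), sum_Ioc_succ_top (Nat.zero_le y)]
      have e : ∑ k ∈ Ioc 0 y, (g k : ℂ) * κ k + g (y + 1) * κ (y + 1)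
          - g (y + 1) * (∑ k ∈ Ioc 0 y, κ k + κ (y + 1))
          = (∑ k ∈ Ioc 0 y, (g k : ℂ) * κ k - g y * ∑ k ∈ Ioc 0 y, κ k)
            - ((g (y + 1) - g y : ℝ) : ℂ) * ∑ k ∈ Ioc 0 y, κ k := by push_cast; ring
      rw [e]
      have h1 : 0 ≤ g (y + 1) - g y := sub_nonneg.mpr (hg (Nat.le_succ y))
      have h2 : ‖((g (y + 1) - g y : ℝ) : ℂ) * ∑ k ∈ Ioc 0 y, κ k‖ ≤ (g (y + 1) - g y) * B := by
        rw [norm_mul, Complex.norm_real, Real.norm_of_nonneg h1]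
        exact mul_le_mul_of_nonneg_left (hB y (by omega)) h1
      calc _ ≤ ‖∑ k ∈ Ioc 0 y, (g k : ℂ) * κ k - g y * ∑ k ∈ Ioc 0 y, κ k‖
            + ‖((g (y + 1) - g y : ℝ) : ℂ) * ∑ k ∈ Ioc 0 y, κ k‖ := norm_sub_le _ _
        _ ≤ B * (g y - g 0) + (g (y + 1) - g y) * B := add_le_add ih' h2
        _ = _ := by ring
  have h1 := key Y le_rfl
  have hgy : 0 ≤ g Y := hg0.trans (hg (Nat.zero_le Y))
  have h2 : ‖(g Y : ℂ) * ∑ k ∈ Ioc 0 Y, κ k‖ ≤ g Y * B := by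
    rw [norm_mul, Complex.norm_real, Real.norm_of_nonneg hgy]
    exact mul_le_mul_of_nonneg_left (hB Y le_rfl) hgy
  have h3 : ‖∑ k ∈ Ioc 0 Y, (g k : ℂ) * κ k‖ ≤
      ‖∑ k ∈ Ioc 0 Y, (g k : ℂ) * κ k - g Y * ∑ k ∈ Ioc 0 Y, κ k‖
      + ‖(g Y : ℂ) * ∑ k ∈ Ioc 0 Y, κ k‖ := by
    have := norm_add_le (∑ k ∈ Ioc 0 Y, (g k : ℂ) * κ k - g Y * ∑ k ∈ Ioc 0 Y, κ k)
      (g Y * ∑ k ∈ Ioc 0 Y, κ k)
    rwa [sub_add_cancel] at this
  nlinarith [mul_nonneg hB0 hg0]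

/-- geometric sums -/
private lemma geo (d N y : ℕ) (hy : y ≤ N / d) (α : ℝ) :
    ‖∑ k ∈ Ioc 0 y, ee ((d * k : ℕ) * α)‖ ≤ gb ((N : ℝ) / d) (d * α) := by
  have h1 := geom_bound 0 y (Nat.zero_le y) (d * α)
  have h2 : ∑ k ∈ Ioc 0 y, ee ((d * k : ℕ) * α) = ∑ n ∈ Ioc 0 y, ee (n * (d * α)) := by
    refine sum_congr rfl fun k _ => ?_
    congr 1
    push_cast
    ring
  rw [h2]
  refine h1.trans (gb_mono _ _ _ ?_ (by simp))
  have h3 : ((N / d : ℕ) : ℝ) ≤ (N : ℝ) / d := Nat.cast_div_le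
  have h4 : (y : ℝ) ≤ ((N / d : ℕ) : ℝ) := by exact_mod_cast hy
  simp only [Nat.cast_zero, sub_zero]
  linarith

/-- sum against a function supported on `[1, V]`. -/
private lemma truncC (f : ℕ → ℝ) (V N : ℕ) (hV : V ≤ N) (hf : ∀ n, V < n → f n = 0) (F : ℝ)
    (hF : ∀ n ∈ Ioc 0 V, |f n| ≤ F) (G : ℕ → ℂ) (T : ℕ → ℝ)
    (hG : ∀ a ∈ Ioc 0 V, ‖G a‖ ≤ T a) :
    ‖∑ a ∈ Ioc 0 N, (f a : ℂ) * G a‖ ≤ F * ∑ a ∈ Ioc 0 V, T a := by
  have h1 : ∑ a ∈ Ioc 0 N, (f a : ℂ) * G a = ∑ a ∈ Ioc 0 V, (f a : ℂ) * G a := by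
    symm
    apply sum_subset
    · intro a ha
      rw [mem_Ioc] at *
      omega
    · intro a ha ha'
      rw [mem_Ioc] at *
      rw [hf a (by omega), Complex.ofReal_zero, zero_mul]
  rw [h1, mul_sum]
  refine (norm_sum_le _ _).trans (sum_le_sum fun a ha => ?_)
  rw [norm_mul, Complex.norm_real, Real.norm_eq_abs]
  exact mul_le_mul (hF a ha) (hG a ha) (norm_nonneg _) ((abs_nonneg _).trans (hF a ha))

/-- the coefficients of the second type I sum. -/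
private lemma coef (U V : ℕ) : (∀ n, U * V < n → (trunc Mr V * trunc vonMangoldt U) n = 0) ∧
    ∀ n, n ≠ 0 → |(trunc Mr V * trunc vonMangoldt U) n| ≤ Real.log n := by
  constructor
  · intro n hn
    rw [mul_apply]
    refine sum_eq_zero fun p hp => ?_
    have hp' := (Nat.mem_divisorsAntidiagonal.mp hp).1
    rw [trunc_apply, trunc_apply]
    by_cases h1 : p.1 ≤ V
    · by_cases h2 : p.2 ≤ U
      · exfalso
        have : p.1 * p.2 ≤ V * U := Nat.mul_le_mul h1 h2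
        rw [mul_comm V U] at this
        omega
      · rw [if_neg h2, mul_zero]
    · rw [if_neg h1, zero_mul]
  · intro n hn
    rw [mul_apply]
    refine (abs_sum_le_sum_abs _ _).trans ?_
    have h1 : ∀ p ∈ n.divisorsAntidiagonal, |trunc Mr V p.1 * trunc vonMangoldt U p.2| ≤
        vonMangoldt p.2 := by
      intro p _
      rw [abs_mul, trunc_apply, trunc_apply]
      have a1 : |if p.1 ≤ V then Mr p.1 else 0| ≤ 1 := by
        split_ifs
        · exact abs_Mr_le _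
        · simp
      have a2 : |if p.2 ≤ U then vonMangoldt p.2 else 0| ≤ vonMangoldt p.2 := by
        split_ifs
        · rw [abs_of_nonneg vonMangoldt_nonneg]
        · rw [abs_zero]; exact vonMangoldt_nonneg
      calc _ ≤ 1 * vonMangoldt p.2 := mul_le_mul a1 a2 (abs_nonneg _) zero_le_one
        _ = _ := one_mul _
    refine (sum_le_sum h1).trans (le_of_eq ?_)
    have h2 : (Zr * vonMangoldt : ArithmeticFunction ℝ) n = Real.log n := by
      rw [zeta_mul_vonMangoldt, log_apply]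
    rw [← h2, mul_apply]
    refine sum_congr rfl fun p hp => ?_
    have hp' := Nat.mem_divisorsAntidiagonal.mp hp
    rw [Zr_apply _ (by rintro h; rw [h, zero_mul] at hp'; exact hn hp'.1.symm), one_mul]

/-- one dyadic block of the type II sum -/
private lemma dyadic (C : ℝ) (hC : 0 < C)
    (hbil : ∀ (α : ℝ) (a : ℤ) (q N M : ℕ) (x y : ℕ → ℝ), 0 < q →
    0 < M → M ≤ N → IsCoprime a (q : ℤ) → |α - a / q| ≤ 1 / (q : ℝ) ^ 2 →
    ‖∑ m ∈ Ioc M (2 * M), ∑ n ∈ Ioc 0 (N / m), ((x m * y n : ℝ) : ℂ) * ee (m * n * α)‖ ^ 2 ≤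
      C * (∑ m ∈ Ioc M (2 * M), x m ^ 2) * (∑ n ∈ Ioc 0 (N / M), y n ^ 2) *
        ((N : ℝ) / q + N / M + M + q) * (1 + Real.log q))
    (α : ℝ) (a : ℤ) (q N U M : ℕ) (L : ℝ) (hL : L = 1 + Real.log N) (hq : 0 < q) (hN : 2 ≤ N)
    (hqN : q ≤ N) (hcop : IsCoprime a (q : ℤ)) (hα : |α - a / q| ≤ 1 / (q : ℝ) ^ 2)
    (hU : 0 < U) (hU2 : (N : ℝ) ^ (2 / 5 : ℝ) ≤ 2 * U) (hUM : U ≤ M) :
    ‖∑ m ∈ Ioc M (2 * M), (alpha U m : ℂ) * ∑ n ∈ Ioc 0 (N / m), (beta U n : ℂ) *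
      ee ((m * n : ℕ) * α)‖ ≤
      4 * √C * L ^ 3 * (N / √q + (N : ℝ) ^ (4 / 5 : ℝ) + √(N * q)) := by
  have hN0 : (0 : ℝ) < N := by exact_mod_cast (by omega : 0 < N)
  have hq0 : (0 : ℝ) < q := by exact_mod_cast hq
  have hlogN : 0 ≤ Real.log N := Real.log_natCast_nonneg N
  have hL1 : 1 ≤ L := by linarith
  have hT0 : 0 ≤ 4 * √C * L ^ 3 * (N / √q + (N : ℝ) ^ (4 / 5 : ℝ) + √(N * q)) := by positivity
  by_cases hMN : M * (U + 1) ≤ N
  swap
  · -- the block is empty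
    have h0 : ∀ m ∈ Ioc M (2 * M), (alpha U m : ℂ) * ∑ n ∈ Ioc 0 (N / m), (beta U n : ℂ) *
        ee ((m * n : ℕ) * α) = 0 := by
      intro m hm
      rw [mem_Ioc] at hm
      have h1 : N / m ≤ U := by
        rw [← Nat.lt_succ_iff, Nat.div_lt_iff_lt_mul (by omega)]
        calc N < M * (U + 1) := by omega
          _ ≤ (U + 1) * m := by rw [mul_comm]; exact Nat.mul_le_mul_left _ hm.1.le
      have h2 : ∑ n ∈ Ioc 0 (N / m), (beta U n : ℂ) * ee ((m * n : ℕ) * α) = 0 := by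
        refine sum_eq_zero fun n hn => ?_
        rw [mem_Ioc] at hn
        rw [beta_eq_zero U n (hn.2.trans h1), Complex.ofReal_zero, zero_mul]
      rw [h2, mul_zero]
    rw [sum_eq_zero h0, norm_zero]
    exact hT0
  have hM : 0 < M := lt_of_lt_of_le hU hUM
  have hM0 : (0 : ℝ) < M := by exact_mod_cast hM
  have hU0 : (0 : ℝ) < U := by exact_mod_cast hU
  have hMN' : M ≤ N := (Nat.le_mul_of_pos_right M (by omega)).trans hMN
  have hb := hbil α a q N M (fun n => alpha U n) (fun n => beta U n) hq hM hMN' hcop hα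
  have e : ∑ m ∈ Ioc M (2 * M), (alpha U m : ℂ) * ∑ n ∈ Ioc 0 (N / m), (beta U n : ℂ) *
      ee ((m * n : ℕ) * α) = ∑ m ∈ Ioc M (2 * M), ∑ n ∈ Ioc 0 (N / m),
        ((alpha U m * beta U n : ℝ) : ℂ) * ee (m * n * α) := by
    refine sum_congr rfl fun m _ => ?_
    rw [mul_sum]
    refine sum_congr rfl fun n _ => ?_
    push_cast
    ring
  rw [e]
  have hlog2 : Real.log 2 ≤ 1 := by
    have := Real.log_two_lt_d9
    linarith
  have hA : ∑ m ∈ Ioc M (2 * M), alpha U m ^ 2 ≤ M * L ^ 2 := by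
    have h1 : ∀ m ∈ Ioc M (2 * M), alpha U m ^ 2 ≤ L ^ 2 := by
      intro m hm
      rw [mem_Ioc] at hm
      have h2 : alpha U m ≤ Real.log m := alpha_le_log U m
      have h3 : Real.log m ≤ Real.log (2 * N : ℝ) := by
        refine Real.log_le_log (by exact_mod_cast (by omega : 0 < m)) ?_
        have : m ≤ 2 * N := by omega
        exact_mod_cast this
      rw [Real.log_mul (by norm_num) hN0.ne'] at h3
      exact pow_le_pow_left₀ (alpha_nonneg U m) (by linarith) 2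
    refine (sum_le_sum h1).trans (le_of_eq ?_)
    rw [sum_const, Nat.card_Ioc, nsmul_eq_mul]
    congr 1
    rw [show 2 * M - M = M by omega]
  have hB : ∑ n ∈ Ioc 0 (N / M), beta U n ^ 2 ≤ N / M * L ^ 3 := by
    have h1 : ∀ n ∈ Ioc 0 (N / M), beta U n ^ 2 ≤ tau n ^ 2 := by
      intro n _
      rw [← sq_abs (beta U n)]
      exact pow_le_pow_left₀ (abs_nonneg _) (abs_beta_le U n) 2
    refine ((sum_le_sum h1).trans (sum_tau_sq_le _)).trans ?_
    have h2 : ((N / M : ℕ) : ℝ) ≤ (N : ℝ) / M := Nat.cast_div_le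
    have h3 : 1 + Real.log ((N / M : ℕ) : ℝ) ≤ L := by
      have : 0 < N / M := Nat.div_pos hMN' hM
      have h4 : Real.log ((N / M : ℕ) : ℝ) ≤ Real.log N :=
        Real.log_le_log (by exact_mod_cast this) (by exact_mod_cast Nat.div_le_self N M)
      linarith
    have h0 : 0 ≤ 1 + Real.log ((N / M : ℕ) : ℝ) := by
      have := Real.log_natCast_nonneg (N / M)
      linarith
    exact mul_le_mul h2 (pow_le_pow_left₀ h0 h3 3) (by positivity) (by positivity)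
  have hlq : 1 + Real.log q ≤ L := by
    have : Real.log q ≤ Real.log N := Real.log_le_log hq0 (by exact_mod_cast hqN)
    linarith
  have hlq0 : 0 ≤ 1 + Real.log q := by
    have := Real.log_natCast_nonneg q
    linarith
  -- the main quantity
  have hNU : (N : ℝ) * (N / U) ≤ 2 * (N : ℝ) ^ (8 / 5 : ℝ) := by
    have h1 : (N : ℝ) ^ (8 / 5 : ℝ) * (N : ℝ) ^ (2 / 5 : ℝ) = N * N := by
      rw [← Real.rpow_add hN0]
      norm_num
      ring
    have h2 : 0 ≤ (N : ℝ) ^ (8 / 5 : ℝ) := by positivity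
    rw [← mul_div_assoc, div_le_iff₀ hU0, ← h1]
    nlinarith
  have hS : ((N : ℝ) / q + N / M + M + q) ≤ (N : ℝ) / q + 2 * (N / U) + q := by
    have h1 : (N : ℝ) / M ≤ N / U :=
      div_le_div_of_nonneg_left hN0.le hU0 (by exact_mod_cast hUM)
    have h2 : (M : ℝ) ≤ N / U := by
      rw [le_div_iff₀ hU0]
      have : M * U ≤ N := (Nat.mul_le_mul_left M (Nat.le_succ U)).trans hMN
      exact_mod_cast this
    linarith
  have hfin : ‖∑ m ∈ Ioc M (2 * M), ∑ n ∈ Ioc 0 (N / m),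
        ((alpha U m * beta U n : ℝ) : ℂ) * ee (m * n * α)‖ ^ 2 ≤
      C * L ^ 6 * (N ^ 2 / q + 4 * (N : ℝ) ^ (8 / 5 : ℝ) + N * q) := by
    refine hb.trans ?_
    have hA0 : 0 ≤ ∑ m ∈ Ioc M (2 * M), alpha U m ^ 2 := sum_nonneg fun _ _ => sq_nonneg _
    have hB0 : 0 ≤ ∑ n ∈ Ioc 0 (N / M), beta U n ^ 2 := sum_nonneg fun _ _ => sq_nonneg _
    have hS0 : (0 : ℝ) ≤ (N : ℝ) / q + N / M + M + q := by positivity
    calc C * (∑ m ∈ Ioc M (2 * M), alpha U m ^ 2) * (∑ n ∈ Ioc 0 (N / M), beta U n ^ 2) *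
          ((N : ℝ) / q + N / M + M + q) * (1 + Real.log q)
        ≤ C * (M * L ^ 2) * (N / M * L ^ 3) * ((N : ℝ) / q + 2 * (N / U) + q) * L := by
          gcongr
      _ = C * L ^ 6 * (N * ((N : ℝ) / q + 2 * (N / U) + q)) := by
          field_simp
      _ ≤ C * L ^ 6 * (N ^ 2 / q + 4 * (N : ℝ) ^ (8 / 5 : ℝ) + N * q) := by
          refine mul_le_mul_of_nonneg_left ?_ (by positivity)
          have : (N : ℝ) * (N / q) = N ^ 2 / q := by ring
          nlinarith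
  refine le_of_sq_le_sq ?_ hT0
  refine hfin.trans ?_
  have hsC : √C ^ 2 = C := Real.sq_sqrt hC.le
  have e1 : ((N : ℝ) / √q) ^ 2 = N ^ 2 / q := by
    rw [div_pow, Real.sq_sqrt hq0.le]
  have e2 : ((N : ℝ) ^ (4 / 5 : ℝ)) ^ 2 = (N : ℝ) ^ (8 / 5 : ℝ) := by
    rw [← Real.rpow_natCast, ← Real.rpow_mul hN0.le]
    norm_num
  have e3 : (√((N : ℝ) * q)) ^ 2 = N * q := Real.sq_sqrt (by positivity)
  have hX : 0 ≤ (N : ℝ) / √q := by positivity
  have hY : 0 ≤ (N : ℝ) ^ (4 / 5 : ℝ) := by positivity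
  have hZ : 0 ≤ √((N : ℝ) * q) := by positivity
  set X := (N : ℝ) / √q
  set Y := (N : ℝ) ^ (4 / 5 : ℝ)
  set Z := √((N : ℝ) * q)
  rw [← e1, ← e2, ← e3]
  have h1 : X ^ 2 + 4 * Y ^ 2 + Z ^ 2 ≤ 16 * (X + Y + Z) ^ 2 := by
    nlinarith [mul_nonneg hX hY, mul_nonneg hY hZ, mul_nonneg hX hZ, sq_nonneg X, sq_nonneg Y,
      sq_nonneg Z]
  calc C * L ^ 6 * (X ^ 2 + 4 * Y ^ 2 + Z ^ 2) ≤ C * L ^ 6 * (16 * (X + Y + Z) ^ 2) :=
        mul_le_mul_of_nonneg_left h1 (by positivity)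
    _ = (4 * √C * L ^ 3 * (X + Y + Z)) ^ 2 := by
        rw [mul_pow, mul_pow, mul_pow, hsC]
        ring

/-- va:4: Vinogradov's bound on the minor arcs (Vaughan). -/
theorem vaughan_minor : ∃ C : ℝ, 0 < C ∧ ∀ (α : ℝ) (a : ℤ) (q N : ℕ), 0 < q → 2 ≤ N → q ≤ N →
    IsCoprime a (q : ℤ) → |α - a / q| ≤ 1 / (q : ℝ) ^ 2 →
    ‖∑ n ∈ Ioc 0 N, (vonMangoldt n : ℂ) * ee (n * α)‖ ≤
      C * (N / √q + (N : ℝ) ^ (4 / 5 : ℝ) + √(N * q)) * Real.log N ^ 4 := by
  obtain ⟨C₁, hC₁, hI⟩ := typeI_sum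
  obtain ⟨C₂, hC₂, hbil⟩ := bilinear
  refine ⟨81 * (1 + 6 * C₁ + 8 * √C₂), by positivity, ?_⟩
  intro α a q N hq hN hqN hcop hα
  have hN0 : (0 : ℝ) < N := by exact_mod_cast (by omega : 0 < N)
  have hN1 : (1 : ℝ) ≤ N := by exact_mod_cast (by omega : 1 ≤ N)
  have hN2 : (2 : ℝ) ≤ N := by exact_mod_cast hN
  have hq0 : (0 : ℝ) < q := by exact_mod_cast hq
  have hq1 : (1 : ℝ) ≤ q := by exact_mod_cast hq
  have hlogN : 0 ≤ Real.log N := Real.log_natCast_nonneg N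
  set L : ℝ := 1 + Real.log N with hL
  have hL1 : 1 ≤ L := by linarith
  set T : ℝ := N / √q + (N : ℝ) ^ (4 / 5 : ℝ) + √(N * q) with hT
  have hX : 0 ≤ (N : ℝ) / √q := by positivity
  have hY : 0 ≤ (N : ℝ) ^ (4 / 5 : ℝ) := by positivity
  have hZ : 0 ≤ √((N : ℝ) * q) := by positivity
  have hT0 : 0 ≤ T := by positivity
  -- the parameter
  set U : ℕ := ⌊(N : ℝ) ^ (2 / 5 : ℝ)⌋₊ with hU
  have hr1 : 1 ≤ (N : ℝ) ^ (2 / 5 : ℝ) := Real.one_le_rpow hN1 (by norm_num)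
  have hU0 : 0 < U := Nat.floor_pos.mpr hr1
  have hUle : (U : ℝ) ≤ (N : ℝ) ^ (2 / 5 : ℝ) := Nat.floor_le (by positivity)
  have hU2 : (N : ℝ) ^ (2 / 5 : ℝ) ≤ 2 * U := by
    have h1 := Nat.lt_floor_add_one ((N : ℝ) ^ (2 / 5 : ℝ))
    have h2 : (1 : ℝ) ≤ U := by exact_mod_cast hU0
    rw [← hU] at h1
    linarith
  have hUU : ((U * U : ℕ) : ℝ) ≤ (N : ℝ) ^ (4 / 5 : ℝ) := by
    push_cast
    have h1 : (N : ℝ) ^ (4 / 5 : ℝ) = (N : ℝ) ^ (2 / 5 : ℝ) * (N : ℝ) ^ (2 / 5 : ℝ) := by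
      rw [← Real.rpow_add hN0]
      norm_num
    rw [h1]
    exact mul_le_mul hUle hUle (by positivity) (by positivity)
  have hY1 : (N : ℝ) ^ (4 / 5 : ℝ) ≤ N := by
    calc (N : ℝ) ^ (4 / 5 : ℝ) ≤ (N : ℝ) ^ (1 : ℝ) :=
          Real.rpow_le_rpow_of_exponent_le hN1 (by norm_num)
      _ = N := Real.rpow_one _
  have hUUN : U * U ≤ N := by exact_mod_cast hUU.trans hY1
  have hUN : U ≤ N := (Nat.le_mul_self U).trans hUUN
  have hUY : (U : ℝ) ≤ (N : ℝ) ^ (4 / 5 : ℝ) := by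
    refine le_trans ?_ hUU
    exact_mod_cast Nat.le_mul_self U
  -- comparison of the main quantities
  have hTI : ∀ D : ℕ, 0 < D → (D : ℝ) ≤ (N : ℝ) ^ (4 / 5 : ℝ) →
      ∑ d ∈ Ioc 0 D, gb ((N : ℝ) / d) (d * α) ≤ 2 * C₁ * T * L := by
    intro D hD hDY
    have hD0 : (0 : ℝ) < D := by exact_mod_cast hD
    have hDN : (D : ℝ) ≤ N := hDY.trans hY1
    refine (hI α a q D N hq hD hN1 hcop hα).trans ?_
    have h1 : (N : ℝ) / q ≤ N / √q := by
      refine div_le_div_of_nonneg_left hN0.le (by positivity) ?_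
      rw [Real.sqrt_le_left hq0.le]
      nlinarith
    have h2 : (q : ℝ) ≤ √(N * q) := by
      apply Real.le_sqrt_of_sq_le
      have : (q : ℝ) ≤ N := by exact_mod_cast hqN
      nlinarith
    have h3 : (N : ℝ) / q + D + q ≤ T := by
      rw [hT]
      linarith
    have h4 : 1 + Real.log (q * D) ≤ 2 * L := by
      rw [Real.log_mul hq0.ne' hD0.ne']
      have a1 : Real.log q ≤ Real.log N := Real.log_le_log hq0 (by exact_mod_cast hqN)
      have a2 : Real.log D ≤ Real.log N := Real.log_le_log hD0 hDN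
      linarith
    have h5 : 0 ≤ Real.log (q * D) := by
      rw [Real.log_mul hq0.ne' hD0.ne']
      have a1 := Real.log_natCast_nonneg q
      have a2 := Real.log_natCast_nonneg D
      linarith
    calc C₁ * (N / q + D + q) * (1 + Real.log (q * D)) ≤ C₁ * T * (2 * L) :=
          mul_le_mul (mul_le_mul_of_nonneg_left h3 hC₁.le) h4 (by linarith) (by positivity)
      _ = _ := by ring
  -- Vaughan's identity
  have hV := vaughan U U
  have hsplit : ∑ n ∈ Ioc 0 N, (vonMangoldt n : ℂ) * ee (n * α) =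
      ∑ n ∈ Ioc 0 N, ((trunc vonMangoldt U n : ℝ) : ℂ) * ee (n * α) +
      ∑ n ∈ Ioc 0 N, (((trunc Mr U * ArithmeticFunction.log) n : ℝ) : ℂ) * ee (n * α) -
      ∑ n ∈ Ioc 0 N, ((((trunc Mr U * trunc vonMangoldt U) * Zr) n : ℝ) : ℂ) * ee (n * α) +
      ∑ n ∈ Ioc 0 N, (((alpha U * beta U) n : ℝ) : ℂ) * ee (n * α) := by
    rw [← sum_add_distrib, ← sum_sub_distrib, ← sum_add_distrib]
    refine sum_congr rfl fun n _ => ?_
    have h1 : (vonMangoldt n : ℝ) = trunc vonMangoldt U n +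
        (trunc Mr U * ArithmeticFunction.log) n -
        ((trunc Mr U * trunc vonMangoldt U) * Zr) n + (alpha U * beta U) n := by
      conv_lhs => rw [hV, ← mul_assoc (trunc Mr U)]
      rfl
    rw [h1]
    push_cast
    ring
  -- S1
  have hS1 : ‖∑ n ∈ Ioc 0 N, ((trunc vonMangoldt U n : ℝ) : ℂ) * ee (n * α)‖ ≤ T * L := by
    refine (truncC (fun n => trunc vonMangoldt U n) U N hUN ?_ L ?_ (fun n => ee (n * α))
      (fun _ => 1) ?_).trans ?_
    · intro n hn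
      rw [trunc_apply, if_neg (by omega)]
    · intro n hn
      rw [mem_Ioc] at hn
      rw [trunc_apply, if_pos hn.2, abs_of_nonneg vonMangoldt_nonneg]
      have h1 : vonMangoldt n ≤ Real.log n := vonMangoldt_le_log
      have h2 : Real.log n ≤ Real.log N :=
        Real.log_le_log (by exact_mod_cast hn.1) (by exact_mod_cast hn.2.trans hUN)
      linarith
    · intro n _
      exact (h85_norm_ee _).le
    · rw [sum_const, Nat.card_Ioc, nsmul_eq_mul, mul_one, Nat.sub_zero, mul_comm]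
      refine mul_le_mul_of_nonneg_right ?_ (by linarith)
      rw [hT]
      linarith
  -- S2
  have hS2 : ‖∑ n ∈ Ioc 0 N, (((trunc Mr U * ArithmeticFunction.log) n : ℝ) : ℂ) * ee (n * α)‖ ≤
      4 * C₁ * T * L ^ 2 := by
    rw [convC (trunc Mr U) ArithmeticFunction.log (fun n : ℕ => ee ((n : ℝ) * α)) N]
    refine (truncC (fun n => trunc Mr U n) U N hUN ?_ 1 ?_ _
      (fun d => 2 * gb ((N : ℝ) / d) (d * α) * L) ?_).trans ?_
    · intro n hn
      rw [trunc_apply, if_neg (by omega)]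
    · intro n hn
      rw [mem_Ioc] at hn
      rw [trunc_apply, if_pos hn.2]
      exact abs_Mr_le n
    · intro d hd
      rw [mem_Ioc] at hd
      have h1 := abelC (fun n : ℕ => Real.log n) (fun k => ee ((d * k : ℕ) * α)) log_mono
        (by simp) (gb ((N : ℝ) / d) (d * α)) (N / d) (fun y hy => geo d N y hy α)
      simp only [log_apply]
      refine h1.trans ?_
      have hg0 : 0 ≤ gb ((N : ℝ) / d) (d * α) :=
        (norm_nonneg _).trans (geo d N 0 (Nat.zero_le _) α)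
      refine mul_le_mul_of_nonneg_left ?_ (by positivity)
      have h3 : Real.log ((N / d : ℕ) : ℝ) ≤ Real.log N := by
        rcases Nat.eq_zero_or_pos (N / d) with h | h
        · rw [h, Nat.cast_zero, Real.log_zero]; exact hlogN
        · exact Real.log_le_log (by exact_mod_cast h) (by exact_mod_cast Nat.div_le_self N d)
      linarith
    · rw [one_mul, ← sum_mul, ← mul_sum]
      have := hTI U hU0 hUY
      have h2 := mul_le_mul_of_nonneg_right this (by linarith : 0 ≤ 2 * L)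
      nlinarith
  -- S3
  obtain ⟨c1, c2⟩ := coef U U
  have hS3 : ‖∑ n ∈ Ioc 0 N, ((((trunc Mr U * trunc vonMangoldt U) * Zr) n : ℝ) : ℂ) *
      ee (n * α)‖ ≤ 2 * C₁ * T * L ^ 2 := by
    rw [convC (trunc Mr U * trunc vonMangoldt U) Zr (fun n : ℕ => ee ((n : ℝ) * α)) N]
    refine (truncC (fun n => (trunc Mr U * trunc vonMangoldt U) n) (U * U) N hUUN c1 L ?_ _
      (fun d => gb ((N : ℝ) / d) (d * α)) ?_).trans ?_
    · intro n hn
      rw [mem_Ioc] at hn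
      refine (c2 n hn.1.ne').trans ?_
      have : Real.log n ≤ Real.log N :=
        Real.log_le_log (by exact_mod_cast hn.1) (by exact_mod_cast hn.2.trans hUUN)
      linarith
    · intro d hd
      have h1 : ∑ b ∈ Ioc 0 (N / d), ((Zr b : ℝ) : ℂ) * ee ((d * b : ℕ) * α) =
          ∑ b ∈ Ioc 0 (N / d), ee ((d * b : ℕ) * α) := by
        refine sum_congr rfl fun b hb => ?_
        rw [Zr_apply b (mem_Ioc.mp hb).1.ne', Complex.ofReal_one, one_mul]
      rw [h1]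
      exact geo d N _ le_rfl α
    · have := hTI (U * U) (Nat.mul_pos hU0 hU0) hUU
      have h2 := mul_le_mul_of_nonneg_left this (by linarith : 0 ≤ L)
      nlinarith
  -- S4
  have hS4 : ‖∑ n ∈ Ioc 0 N, (((alpha U * beta U) n : ℝ) : ℂ) * ee (n * α)‖ ≤
      8 * √C₂ * T * L ^ 4 := by
    rw [convC (alpha U) (beta U) (fun n : ℕ => ee ((n : ℝ) * α)) N]
    set F : ℕ → ℂ := fun m => (alpha U m : ℂ) * ∑ n ∈ Ioc 0 (N / m), (beta U n : ℂ) *
      ee ((m * n : ℕ) * α) with hF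
    have hF1 : ∀ m, m ≤ U → F m = 0 := by
      intro m hm
      rw [hF]
      simp only
      rw [alpha_apply, if_pos hm, Complex.ofReal_zero, zero_mul]
    have hF2 : ∀ m, N < m → F m = 0 := by
      intro m hm
      rw [hF]
      simp only
      rw [Nat.div_eq_of_lt hm]
      simp
    set J : ℕ := Nat.log 2 N + 1 with hJ
    have hJN : N ≤ U * 2 ^ J := by
      have h1 : N < 2 ^ J := Nat.lt_pow_succ_log_self (by norm_num) N
      exact h1.le.trans (Nat.le_mul_of_pos_left _ hU0)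
    have h1 : ∑ m ∈ Ioc 0 N, F m = ∑ m ∈ Ioc U (U * 2 ^ J), F m := by
      have e1 : ∑ m ∈ Ioc 0 N, F m = ∑ m ∈ Ioc 0 (U * 2 ^ J), F m := by
        apply sum_subset
        · intro m hm
          rw [mem_Ioc] at *
          omega
        · intro m _ hm'
          rw [mem_Ioc] at *
          exact hF2 m (by omega)
      rw [e1]
      symm
      apply sum_subset
      · intro m hm
        rw [mem_Ioc] at *
        omega
      · intro m _ hm'
        rw [mem_Ioc] at *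
        exact hF1 m (by omega)
    have h2 : ∀ j : ℕ, ∑ m ∈ Ioc U (U * 2 ^ j), F m =
        ∑ i ∈ range j, ∑ m ∈ Ioc (U * 2 ^ i) (2 * (U * 2 ^ i)), F m := by
      intro j
      induction j with
      | zero => simp
      | succ j ih =>
        rw [sum_range_succ, ← ih]
        have e2 : 2 * (U * 2 ^ j) = U * 2 ^ (j + 1) := by ring
        rw [e2]
        refine (sum_Ioc_consecutive F ?_ ?_).symm
        · exact Nat.le_mul_of_pos_right U (by positivity)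
        · exact Nat.mul_le_mul_left U (Nat.pow_le_pow_right (by norm_num) (Nat.le_succ j))
    rw [h1, h2]
    have h3 : ∀ i ∈ range J, ‖∑ m ∈ Ioc (U * 2 ^ i) (2 * (U * 2 ^ i)), F m‖ ≤
        4 * √C₂ * L ^ 3 * T := by
      intro i _
      exact dyadic C₂ hC₂ hbil α a q N U (U * 2 ^ i) L hL hq hN hqN hcop hα hU0 hU2
        (Nat.le_mul_of_pos_right U (by positivity))
    refine (norm_sum_le _ _).trans ((sum_le_sum h3).trans ?_)
    rw [sum_const, card_range, nsmul_eq_mul]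
    have h4 : (J : ℝ) ≤ 2 * L := by
      have h5 : ((Nat.log 2 N : ℕ) : ℝ) * Real.log 2 ≤ Real.log N := by
        rw [← Real.log_pow]
        refine Real.log_le_log (by positivity) ?_
        exact_mod_cast Nat.pow_log_le_self 2 (by omega)
      have h6 := Real.log_two_gt_d9
      rw [hJ]
      push_cast
      have h7 : (0 : ℝ) ≤ ((Nat.log 2 N : ℕ) : ℝ) := Nat.cast_nonneg _
      nlinarith
    calc (J : ℝ) * (4 * √C₂ * L ^ 3 * T) ≤ (2 * L) * (4 * √C₂ * L ^ 3 * T) :=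
          mul_le_mul_of_nonneg_right h4 (by positivity)
      _ = _ := by ring
  -- total
  have hL3 : L ≤ 3 * Real.log N := by
    have h1 : Real.log 2 ≤ Real.log N := Real.log_le_log (by norm_num) hN2
    have h2 := Real.log_two_gt_d9
    rw [hL]
    linarith
  have hL4 : L ^ 4 ≤ 81 * Real.log N ^ 4 := by
    calc L ^ 4 ≤ (3 * Real.log N) ^ 4 := pow_le_pow_left₀ (by linarith) hL3 4
      _ = _ := by ring
  have hL24 : L ^ 2 ≤ L ^ 4 := pow_le_pow_right₀ hL1 (by norm_num)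
  have hL14 : L ≤ L ^ 4 := by
    calc L = L ^ 1 := (pow_one L).symm
      _ ≤ L ^ 4 := pow_le_pow_right₀ hL1 (by norm_num)
  rw [hsplit]
  refine (norm_add_le _ _).trans ?_
  refine (add_le_add_left ((norm_sub_le _ _).trans
    (add_le_add_left (norm_add_le _ _) _)) _).trans ?_
  have t1 : T * L ≤ T * L ^ 4 := mul_le_mul_of_nonneg_left hL14 hT0
  have t2 : 4 * C₁ * T * L ^ 2 ≤ 4 * C₁ * T * L ^ 4 :=
    mul_le_mul_of_nonneg_left hL24 (by positivity)
  have t3 : 2 * C₁ * T * L ^ 2 ≤ 2 * C₁ * T * L ^ 4 :=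
    mul_le_mul_of_nonneg_left hL24 (by positivity)
  have t4 : (1 + 6 * C₁ + 8 * √C₂) * T * L ^ 4 ≤
      (1 + 6 * C₁ + 8 * √C₂) * T * (81 * Real.log N ^ 4) :=
    mul_le_mul_of_nonneg_left hL4 (by positivity)
  calc _ ≤ T * L + 4 * C₁ * T * L ^ 2 + 2 * C₁ * T * L ^ 2 + 8 * √C₂ * T * L ^ 4 := by
        linarith
    _ ≤ (1 + 6 * C₁ + 8 * √C₂) * T * L ^ 4 := by linarith
    _ ≤ (1 + 6 * C₁ + 8 * √C₂) * T * (81 * Real.log N ^ 4) := t4
    _ = _ := by ring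

end Pool.Agent.helper74.TG
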