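import Pool.Agent.helper85.TG.VA1

/-!
# TG (MP_d11331_al), va:2: type I and type II sums of the bounds `gb`
-/

namespace Pool.Agent.helper74.TG

open Finset ArithmeticFunction

private lemma gb_le_left {X β : ℝ} (_hX : 0 ≤ X) : gb X β ≤ X := by
  unfold gb
  split_ifs with h
  · exact le_rfl
  · have h0 : 0 ≤ |β - round β| := abs_nonneg _
    have hp : 0 < |β - round β| := by
      by_contra hn
      have : |β - round β| = 0 := le_antisymm (not_lt.mp hn) h0
      apply h
      rw [this]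
      norm_num
    rw [div_le_iff₀ (by positivity)]
    nlinarith

private lemma gb_le_right {X β : ℝ} (hβ : 0 < |β - round β|) : gb X β ≤ 1 / (2 * |β - round β|) := by
  unfold gb
  split_ifs with h
  · rw [le_div_iff₀ (by positivity)]
    nlinarith
  · exact le_rfl

private lemma gb_nonneg {X β : ℝ} (hX : 0 ≤ X) : 0 ≤ gb X β := by
  unfold gb
  split_ifs
  · exact hX
  · positivity

private lemma harm (n : ℕ) : ∑ m ∈ Ioc 0 n, 1 / (m : ℝ) ≤ 1 + Real.log n := by
  have h := harmonic_le_one_add_log n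
  have e : ∀ n : ℕ, ∑ m ∈ Ioc 0 n, 1 / (m : ℝ) = ((harmonic n : ℚ) : ℝ) := by
    intro n
    induction n with
    | zero => simp
    | succ n ih =>
      rw [sum_Ioc_succ_top (Nat.zero_le n), ih, harmonic_succ]
      push_cast
      rw [one_div]
  rw [e]
  exact h

/-- separated points in `[0, 1/2]` -/
private lemma half (q : ℕ) (hq : 0 < q) (S : Finset ℕ) (ρ g : ℕ → ℝ) (X : ℝ) (hX : 0 ≤ X)
    (h0 : ∀ k ∈ S, 0 ≤ ρ k ∧ ρ k ≤ 1 / 2)
    (hsp : ∀ k ∈ S, ∀ k' ∈ S, k ≠ k' → 1 / (2 * (q : ℝ)) ≤ |ρ k - ρ k'|)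
    (hg : ∀ k ∈ S, ρ k < 1 / (2 * (q : ℝ)) → g k ≤ X)
    (hg' : ∀ k ∈ S, 0 < ρ k → g k ≤ 1 / (2 * ρ k)) :
    ∑ k ∈ S, g k ≤ X + q * (1 + Real.log q) := by
  have hq0 : (0 : ℝ) < q := by exact_mod_cast hq
  set m : ℕ → ℕ := fun k => ⌊2 * q * ρ k⌋₊ with hm
  have hmle : ∀ k ∈ S, m k ≤ q := by
    intro k hk
    have h1 := (h0 k hk).2
    have h2 : 2 * q * ρ k ≤ q := by nlinarith
    have h3 : (m k : ℝ) ≤ 2 * q * ρ k := Nat.floor_le (by have := (h0 k hk).1; positivity)
    exact_mod_cast h3.trans h2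
  have hinj : Set.InjOn m S := by
    intro k hk k' hk' h
    by_contra hne
    have h1 := hsp k hk k' hk' hne
    have hk0 := (h0 k hk).1
    have hk0' := (h0 k' hk').1
    have a1 := Nat.floor_le (show 0 ≤ 2 * q * ρ k by positivity)
    have a2 := Nat.lt_floor_add_one (2 * q * ρ k)
    have b1 := Nat.floor_le (show 0 ≤ 2 * q * ρ k' by positivity)
    have b2 := Nat.lt_floor_add_one (2 * q * ρ k')
    simp only [hm] at h
    rw [h] at a1 a2
    have h2 : |2 * q * ρ k - 2 * q * ρ k'| < 1 := by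
      rw [abs_lt]
      constructor <;> linarith
    rw [← mul_sub, abs_mul, abs_of_pos (by positivity : (0 : ℝ) < 2 * q)] at h2
    rw [div_le_iff₀ (by positivity)] at h1
    linarith
  have h1 : ∀ k ∈ S, g k ≤ if m k = 0 then X else q * (1 / (m k : ℝ)) := by
    intro k hk
    have hk0 := (h0 k hk).1
    split_ifs with h
    · apply hg k hk
      have h2 : 2 * q * ρ k < 1 := by
        rw [hm] at h
        simpa using h
      rw [lt_div_iff₀ (by positivity)]
      linarith
    · have h2 : (m k : ℝ) ≤ 2 * q * ρ k := Nat.floor_le (by positivity)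
      have h3 : (1 : ℝ) ≤ m k := by exact_mod_cast Nat.one_le_iff_ne_zero.mpr h
      have h4 : 0 < ρ k := by
        by_contra hn
        have : ρ k = 0 := le_antisymm (not_lt.mp hn) hk0
        rw [this, mul_zero] at h2
        linarith
      refine (hg' k hk h4).trans ?_
      rw [mul_one_div, div_le_div_iff₀ (by positivity) (by linarith)]
      linarith
  calc ∑ k ∈ S, g k ≤ ∑ k ∈ S, (if m k = 0 then X else q * (1 / (m k : ℝ))) := sum_le_sum h1
    _ = ∑ i ∈ S.image m, (if i = 0 then X else q * (1 / (i : ℝ))) := by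
        rw [sum_image hinj]
    _ ≤ ∑ i ∈ range (q + 1), (if i = 0 then X else q * (1 / (i : ℝ))) := by
        refine sum_le_sum_of_subset_of_nonneg ?_ ?_
        · intro i hi
          obtain ⟨k, hk, rfl⟩ := mem_image.mp hi
          rw [mem_range]
          exact Nat.lt_succ_of_le (hmle k hk)
        · intro i _ _
          split_ifs
          · exact hX
          · positivity
    _ = X + q * ∑ i ∈ Ioc 0 q, 1 / (i : ℝ) := by
        rw [range_eq_Ico, sum_eq_sum_Ico_succ_bot (by omega), if_pos rfl, mul_sum]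
        congr 1
        refine sum_congr (by ext; simp only [mem_Ico, mem_Ioc]; omega) fun i hi => ?_
        rw [mem_Ioc] at hi
        rw [if_neg hi.1.ne']
    _ ≤ _ := by
        have := harm q
        have := mul_le_mul_of_nonneg_left this hq0.le
        linarith

private lemma spacing (α : ℝ) (a : ℤ) (q : ℕ) (hq : 0 < q) (hcop : IsCoprime a (q : ℤ))
    (hα : |α - a / q| ≤ 1 / (q : ℝ) ^ 2) (d m : ℤ) (hd : d ≠ 0) (hdq : 2 * |d| ≤ q) :
    1 / (2 * (q : ℝ)) ≤ |d * α - m| := by
  have hq0 : (0 : ℝ) < q := by exact_mod_cast hq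
  have h1 : (1 : ℝ) / q ≤ |(d * a / q : ℝ) - m| := by
    have h2 : (d * a - m * q : ℤ) ≠ 0 := by
      intro h
      have h3 : (q : ℤ) ∣ d * a := ⟨m, by linarith⟩
      have h4 : (q : ℤ) ∣ d := hcop.symm.dvd_of_dvd_mul_right h3
      have h5 := Int.le_of_dvd (abs_pos.mpr hd) ((dvd_abs _ _).mpr h4)
      have : (0 : ℤ) < q := by exact_mod_cast hq
      omega
    have h3 : (1 : ℝ) ≤ |((d * a - m * q : ℤ) : ℝ)| := by
      rw [← Int.cast_abs]
      exact_mod_cast Int.one_le_abs h2
    have e : (d * a / q : ℝ) - m = ((d * a - m * q : ℤ) : ℝ) / q := by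
      push_cast
      field_simp
    rw [e, abs_div, abs_of_pos hq0]
    exact div_le_div_of_nonneg_right h3 hq0.le
  have h2 : |(d : ℝ) * (α - a / q)| ≤ 1 / (2 * q) := by
    rw [abs_mul]
    have h3 : 2 * |(d : ℝ)| ≤ q := by
      rw [← Int.cast_abs]
      exact_mod_cast hdq
    calc |(d : ℝ)| * |α - a / q| ≤ (q / 2) * (1 / (q : ℝ) ^ 2) :=
          mul_le_mul (by linarith) hα (abs_nonneg _) (by positivity)
      _ = _ := by field_simp
  have e : (d : ℝ) * α - m = ((d * a / q : ℝ) - m) + d * (α - a / q) := by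
    field_simp
    ring
  rw [e]
  have h3 := abs_sub_abs_le_abs_sub ((d * a / q : ℝ) - m) (-(d * (α - a / q)))
  rw [abs_neg, sub_neg_eq_add] at h3
  have h4 : (1 : ℝ) / q = 1 / (2 * q) + 1 / (2 * q) := by field_simp; norm_num
  linarith

/-- a block -/
private lemma block (α : ℝ) (a : ℤ) (q : ℕ) (hq : 0 < q) (hcop : IsCoprime a (q : ℤ))
    (hα : |α - a / q| ≤ 1 / (q : ℝ) ^ 2) (S : Finset ℕ)
    (hS : ∀ k ∈ S, ∀ k' ∈ S, 2 * |(k : ℤ) - k'| ≤ q) (g : ℕ → ℝ) (X : ℝ) (hX : 0 ≤ X)
    (hg : ∀ k ∈ S, |k * α - round (k * α)| < 1 / (2 * (q : ℝ)) → g k ≤ X)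
    (hg' : ∀ k ∈ S, 0 < |k * α - round (k * α)| → g k ≤ 1 / (2 * |k * α - round (k * α)|)) :
    ∑ k ∈ S, g k ≤ 2 * X + 2 * (q * (1 + Real.log q)) := by
  rw [← sum_filter_add_sum_filter_not S (fun k : ℕ => 0 ≤ k * α - round (k * α))]
  have hd : ∀ k ∈ S, ∀ k' ∈ S, k ≠ k' → 1 / (2 * (q : ℝ)) ≤
      |(k * α - round (k * α)) - (k' * α - round (k' * α))| := by
    intro k hk k' hk' hne
    have h1 := spacing α a q hq hcop hα ((k : ℤ) - k') (round (k * α) - round (k' * α))
      (by
        intro h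
        apply hne
        omega) (hS k hk k' hk')
    push_cast at h1
    convert h1 using 2
    ring
  have A := half q hq (S.filter (fun k : ℕ => 0 ≤ k * α - round (k * α)))
    (fun k => k * α - round (k * α)) g X hX
    (by
      intro k hk
      refine ⟨(mem_filter.mp hk).2, ?_⟩
      have := abs_sub_round (k * α)
      exact (le_abs_self _).trans this)
    (by
      intro k hk k' hk' hne
      exact hd k (mem_filter.mp hk).1 k' (mem_filter.mp hk').1 hne)
    (by
      intro k hk h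
      apply hg k (mem_filter.mp hk).1
      rw [abs_of_nonneg (mem_filter.mp hk).2]
      exact h)
    (by
      intro k hk h
      have := hg' k (mem_filter.mp hk).1 (abs_pos.mpr h.ne')
      rwa [abs_of_nonneg (mem_filter.mp hk).2] at this)
  have B := half q hq (S.filter (fun k : ℕ => ¬ 0 ≤ k * α - round (k * α)))
    (fun k => -(k * α - round (k * α))) g X hX
    (by
      intro k hk
      have h1 := (mem_filter.mp hk).2
      refine ⟨by linarith [not_le.mp h1], ?_⟩
      have := abs_sub_round (k * α)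
      exact (neg_le_abs _).trans this)
    (by
      intro k hk k' hk' hne
      have := hd k (mem_filter.mp hk).1 k' (mem_filter.mp hk').1 hne
      rw [← abs_neg] at this
      convert this using 2
      ring)
    (by
      intro k hk h
      apply hg k (mem_filter.mp hk).1
      rw [abs_of_neg (not_le.mp (mem_filter.mp hk).2)]
      exact h)
    (by
      intro k hk h
      have := hg' k (mem_filter.mp hk).1 (by
        rw [abs_pos]
        intro h0
        rw [h0] at h
        norm_num at h)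
      rwa [abs_of_neg (not_le.mp (mem_filter.mp hk).2)] at this)
  linarith

private lemma split_blocks (s D : ℕ) (hs : 0 < s) (g : ℕ → ℝ) (hg : ∀ k, 0 ≤ g k) :
    ∑ k ∈ Ioc 0 D, g k ≤ ∑ j ∈ range (D / s + 1), ∑ k ∈ Ioc (j * s) ((j + 1) * s), g k := by
  have h1 : ∀ J : ℕ, ∑ j ∈ range J, ∑ k ∈ Ioc (j * s) ((j + 1) * s), g k =
      ∑ k ∈ Ioc 0 (J * s), g k := by
    intro J
    induction J with
    | zero => simp
    | succ J ih =>
      rw [sum_range_succ, ih]
      exact sum_Ioc_consecutive g (Nat.zero_le _) (Nat.mul_le_mul_right s (Nat.le_succ J))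
  rw [h1]
  refine sum_le_sum_of_subset_of_nonneg ?_ fun _ _ _ => hg _
  intro k hk
  rw [mem_Ioc] at *
  refine ⟨hk.1, hk.2.trans ?_⟩
  have := Nat.lt_div_mul_add (a := D) hs
  rw [add_mul, one_mul]
  exact this.le

/-- va:2b -/
theorem typeII_sum : ∃ C : ℝ, 0 < C ∧ ∀ (α : ℝ) (a : ℤ) (q D : ℕ) (M : ℝ), 0 < q → 1 ≤ M →
    IsCoprime a (q : ℤ) → |α - a / q| ≤ 1 / (q : ℝ) ^ 2 →
    ∑ d ∈ Ioc 0 D, gb M (d * α) ≤ C * ((D : ℝ) / q + 1) * (M + q * (1 + Real.log q)) := by
  refine ⟨6, by norm_num, ?_⟩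
  intro α a q D M hq hM hcop hα
  have hM0 : 0 ≤ M := by linarith
  have hq1 : (1 : ℝ) ≤ q := by exact_mod_cast hq
  have hlog : 0 ≤ Real.log q := Real.log_nonneg hq1
  rcases Nat.lt_or_ge q 2 with h2 | h2
  · have hq' : q = 1 := by omega
    subst hq'
    have h3 : ∑ d ∈ Ioc 0 D, gb M (d * α) ≤ D * M := by
      refine (sum_le_sum fun d _ => gb_le_left hM0).trans ?_
      simp
    refine h3.trans ?_
    have : (0 : ℝ) ≤ D := Nat.cast_nonneg _
    simp only [Nat.cast_one, div_one, Real.log_one, add_zero, mul_one]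
    nlinarith
  · set s := q / 2 with hs
    have hs0 : 0 < s := by omega
    have hs3 : (q : ℝ) ≤ 3 * s := by
      have : q ≤ 3 * s := by omega
      exact_mod_cast this
    refine (split_blocks s D hs0 _ fun k => gb_nonneg hM0).trans ?_
    have h3 : ∀ j ∈ range (D / s + 1), ∑ k ∈ Ioc (j * s) ((j + 1) * s), gb M (k * α) ≤
        2 * M + 2 * (q * (1 + Real.log q)) := by
      intro j _
      refine block α a q hq hcop hα _ ?_ _ M hM0 (fun k _ _ => gb_le_left hM0)
        (fun k _ h => gb_le_right h)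
      intro k hk k' hk'
      rw [mem_Ioc, add_mul, one_mul] at hk hk'
      have : |(k : ℤ) - k'| ≤ s := by
        rw [abs_le]
        constructor <;> omega
      omega
    refine (sum_le_sum h3).trans ?_
    rw [sum_const, card_range, nsmul_eq_mul]
    have h4 : ((D / s + 1 : ℕ) : ℝ) ≤ 3 * ((D : ℝ) / q + 1) := by
      push_cast
      have : ((D / s : ℕ) : ℝ) ≤ (D : ℝ) / s := Nat.cast_div_le
      have h5 : (D : ℝ) / s ≤ 3 * (D / q) := by
        have hs0' : (0 : ℝ) < s := by exact_mod_cast hs0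
        rw [← mul_div_assoc, div_le_div_iff₀ hs0' (by linarith)]
        have : (0 : ℝ) ≤ D := Nat.cast_nonneg _
        nlinarith
      linarith
    calc ((D / s + 1 : ℕ) : ℝ) * (2 * M + 2 * (q * (1 + Real.log q)))
        ≤ (3 * ((D : ℝ) / q + 1)) * (2 * M + 2 * (q * (1 + Real.log q))) :=
          mul_le_mul_of_nonneg_right h4 (by positivity)
      _ = _ := by ring

/-- va:2a -/
theorem typeI_sum : ∃ C : ℝ, 0 < C ∧ ∀ (α : ℝ) (a : ℤ) (q D : ℕ) (M : ℝ), 0 < q → 0 < D → 1 ≤ M →
    IsCoprime a (q : ℤ) → |α - a / q| ≤ 1 / (q : ℝ) ^ 2 →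
    ∑ d ∈ Ioc 0 D, gb (M / d) (d * α) ≤ C * (M / q + D + q) * (1 + Real.log (q * D)) := by
  refine ⟨8, by norm_num, ?_⟩
  intro α a q D M hq hD hM hcop hα
  have hM0 : 0 ≤ M := by linarith
  have hq1 : (1 : ℝ) ≤ q := by exact_mod_cast hq
  have hD1 : (1 : ℝ) ≤ D := by exact_mod_cast hD
  have hlog : 0 ≤ Real.log q := Real.log_nonneg hq1
  have hlogD : 0 ≤ Real.log D := Real.log_nonneg hD1
  have hlogs : Real.log (q * D) = Real.log q + Real.log D :=
    Real.log_mul (by linarith) (by linarith)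
  rcases Nat.lt_or_ge q 2 with h2 | h2
  · have hq' : q = 1 := by omega
    subst hq'
    have h3 : ∑ d ∈ Ioc 0 D, gb (M / d) (d * α) ≤ M * (1 + Real.log D) := by
      refine (sum_le_sum fun d _ => gb_le_left (by positivity)).trans ?_
      have : ∑ d ∈ Ioc 0 D, M / (d : ℝ) = M * ∑ d ∈ Ioc 0 D, 1 / (d : ℝ) := by
        rw [mul_sum]
        exact sum_congr rfl fun d _ => by ring
      rw [this]
      exact mul_le_mul_of_nonneg_left (harm D) hM0
    refine h3.trans ?_
    rw [hlogs]
    simp only [Nat.cast_one, div_one, Real.log_one, zero_add]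
    have : 0 ≤ (7 * M + 8 * D + 8) * (1 + Real.log D) := by positivity
    nlinarith
  · set s := q / 2 with hs
    have hs0 : 0 < s := by omega
    have hs0' : (0 : ℝ) < s := by exact_mod_cast hs0
    have hs3 : (q : ℝ) ≤ 3 * s := by
      have : q ≤ 3 * s := by omega
      exact_mod_cast this
    refine (split_blocks s D hs0 _ fun k => gb_nonneg (by positivity)).trans ?_
    have hS : ∀ j : ℕ, ∀ k ∈ Ioc (j * s) ((j + 1) * s), ∀ k' ∈ Ioc (j * s) ((j + 1) * s),
        2 * |(k : ℤ) - k'| ≤ q := by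
      intro j k hk k' hk'
      rw [mem_Ioc, add_mul, one_mul] at hk hk'
      have : |(k : ℤ) - k'| ≤ s := by
        rw [abs_le]
        constructor <;> omega
      omega
    rw [sum_range_succ']
    have h0 : ∑ k ∈ Ioc (0 * s) ((0 + 1) * s), gb (M / k) (k * α) ≤
        2 * 0 + 2 * (q * (1 + Real.log q)) := by
      refine block α a q hq hcop hα _ (hS 0) _ 0 le_rfl ?_ (fun k _ h => gb_le_right h)
      intro k hk h
      exfalso
      rw [mem_Ioc] at hk
      have h3 := spacing α a q hq hcop hα k (round (k * α)) (by omega)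
        (by rw [abs_of_nonneg (by omega)]; omega)
      push_cast at h3
      linarith
    have h3 : ∀ j ∈ range (D / s), ∑ k ∈ Ioc ((j + 1) * s) ((j + 1 + 1) * s), gb (M / k) (k * α) ≤
        2 * (M / s * (1 / ((j + 1 : ℕ) : ℝ))) + 2 * (q * (1 + Real.log q)) := by
      intro j _
      refine block α a q hq hcop hα _ (hS (j + 1)) _ _ (by positivity) ?_
        (fun k _ h => gb_le_right h)
      intro k hk _
      rw [mem_Ioc] at hk
      refine (gb_le_left (by positivity)).trans ?_
      rw [div_mul_div_comm, mul_one]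
      refine div_le_div_of_nonneg_left hM0 (by positivity) ?_
      have : ((j + 1) * s : ℕ) ≤ k := hk.1.le
      have h5 : (((j + 1) * s : ℕ) : ℝ) ≤ k := by exact_mod_cast this
      push_cast at h5 ⊢
      linarith
    have h4 := sum_le_sum h3
    rw [sum_add_distrib, ← mul_sum, ← mul_sum, sum_const, card_range, nsmul_eq_mul] at h4
    have h5 : ∑ j ∈ range (D / s), 1 / ((j + 1 : ℕ) : ℝ) ≤ 1 + Real.log D := by
      have e : ∑ j ∈ range (D / s), 1 / ((j + 1 : ℕ) : ℝ) = ∑ m ∈ Ioc 0 (D / s), 1 / (m : ℝ) := by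
        rw [range_eq_Ico, sum_Ico_add' (fun i : ℕ => 1 / (i : ℝ)) 0 (D / s) 1]
        rfl
      rw [e]
      refine (harm _).trans ?_
      rcases Nat.eq_zero_or_pos (D / s) with h | h
      · rw [h, Nat.cast_zero, Real.log_zero]
        linarith
      · have : Real.log ((D / s : ℕ) : ℝ) ≤ Real.log D :=
          Real.log_le_log (by exact_mod_cast h) (by exact_mod_cast Nat.div_le_self D s)
        linarith
    have h6 : ((D / s : ℕ) : ℝ) * q ≤ 3 * D := by
      have h7 : ((D / s : ℕ) : ℝ) ≤ (D : ℝ) / s := Nat.cast_div_le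
      have h8 : ((D / s : ℕ) : ℝ) * s ≤ D := by
        rw [← le_div_iff₀ hs0']
        exact h7
      have h9 : (0 : ℝ) ≤ ((D / s : ℕ) : ℝ) := Nat.cast_nonneg _
      nlinarith
    have h7 : M / s ≤ 3 * (M / q) := by
      rw [← mul_div_assoc, div_le_div_iff₀ hs0' (by linarith)]
      nlinarith
    have h8 : M / s * ∑ j ∈ range (D / s), 1 / ((j + 1 : ℕ) : ℝ) ≤
        3 * (M / q) * (1 + Real.log D) := by
      refine mul_le_mul h7 h5 (sum_nonneg fun _ _ => by positivity) (by positivity)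
    have h9 : ((D / s : ℕ) : ℝ) * (2 * (q * (1 + Real.log q))) ≤ 6 * D * (1 + Real.log q) := by
      have := mul_le_mul_of_nonneg_right h6 (by positivity : 0 ≤ 2 * (1 + Real.log q))
      nlinarith
    have hfin : 6 * (M / q) * (1 + Real.log D) + 6 * D * (1 + Real.log q) +
        2 * (q * (1 + Real.log q)) ≤ 8 * (M / q + D + q) * (1 + Real.log (q * D)) := by
      rw [hlogs]
      have a1 : 0 ≤ M / q := by positivity
      have a2 : 0 ≤ M / q * Real.log q := by positivity
      have a3 : 0 ≤ M / q * Real.log D := by positivity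
      have a4 : 0 ≤ (D : ℝ) * Real.log q := by positivity
      have a5 : 0 ≤ (D : ℝ) * Real.log D := by positivity
      have a6 : 0 ≤ (q : ℝ) * Real.log q := by positivity
      have a7 : 0 ≤ (q : ℝ) * Real.log D := by positivity
      nlinarith
    linarith

end Pool.Agent.helper74.TG
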