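import Pool.Agent.helper85.TG.VA1
import Pool.Agent.helper85.TG.VA2

/-!
# TG (MP_d11331_al), va:3: the bilinear sum
-/

namespace Pool.Agent.helper74.TG

open Finset ArithmeticFunction

private lemma gb_nonneg {X β : ℝ} (hX : 0 ≤ X) : 0 ≤ gb X β := by
  unfold gb
  split_ifs
  · exact hX
  · positivity

private lemma gb_neg (X β : ℝ) : gb X (-β) = gb X β := by
  have h : |(-β) - round (-β)| = |β - round β| := by
    have h1 := round_le (-β) (-round β)
    have h2 := round_le β (-round (-β))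
    push_cast at h1 h2
    have e1 : |(-β) - -(round β : ℝ)| = |β - round β| := by
      rw [← abs_neg]; congr 1; ring
    have e2 : |β - -(round (-β) : ℝ)| = |(-β) - round (-β)| := by
      rw [← abs_neg]; congr 1; ring
    rw [e1] at h1
    rw [e2] at h2
    exact le_antisymm h1 h2
  unfold gb
  rw [h]

private lemma gb_zero {X : ℝ} : gb X 0 = X := by
  unfold gb
  simp

/-- the inner sum -/
private lemma inner (N M n n' : ℕ) (hn : 0 < n) (hn' : 0 < n') (α : ℝ) :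
    ‖∑ m ∈ Ioc M (2 * M), (if n ≤ N / m ∧ n' ≤ N / m then
      ee (m * ((n : ℝ) - n') * α) else 0)‖ ≤ gb M (((n : ℝ) - n') * α) := by
  rw [← sum_filter]
  have h1 : (Ioc M (2 * M)).filter (fun m => n ≤ N / m ∧ n' ≤ N / m) =
      Ioc M (min (2 * M) (min (N / n) (N / n'))) := by
    ext m
    simp only [mem_filter, mem_Ioc, le_min_iff]
    constructor
    · rintro ⟨⟨h1, h2⟩, h3, h4⟩
      have hm : 0 < m := by omega
      rw [Nat.le_div_iff_mul_le hm] at h3 h4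
      refine ⟨h1, h2, ?_, ?_⟩
      · rw [Nat.le_div_iff_mul_le hn, mul_comm]; exact h3
      · rw [Nat.le_div_iff_mul_le hn', mul_comm]; exact h4
    · rintro ⟨h1, h2, h3, h4⟩
      have hm : 0 < m := by omega
      rw [Nat.le_div_iff_mul_le hn] at h3
      rw [Nat.le_div_iff_mul_le hn'] at h4
      refine ⟨⟨h1, h2⟩, ?_, ?_⟩
      · rw [Nat.le_div_iff_mul_le hm, mul_comm]; exact h3
      · rw [Nat.le_div_iff_mul_le hm, mul_comm]; exact h4
  rw [h1]
  set b := min (2 * M) (min (N / n) (N / n')) with hb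
  rcases Nat.lt_or_ge b M with h | h
  · rw [Ioc_eq_empty_of_le h.le, sum_empty, norm_zero]
    exact gb_nonneg (Nat.cast_nonneg _)
  · have h2 := geom_bound M b h (((n : ℝ) - n') * α)
    have h3 : ∑ m ∈ Ioc M b, ee (m * ((n : ℝ) - n') * α) =
        ∑ m ∈ Ioc M b, ee (m * (((n : ℝ) - n') * α)) :=
      sum_congr rfl fun m _ => by rw [mul_assoc]
    rw [h3]
    refine h2.trans (gb_mono _ _ _ ?_ ?_)
    · have : (b : ℝ) ≤ 2 * M := by exact_mod_cast min_le_left _ _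
      linarith
    · have : (M : ℝ) ≤ b := by exact_mod_cast h
      linarith

private lemma row (K n : ℕ) (hn : n ∈ Ioc 0 K) (M α : ℝ) (hM : 0 ≤ M) :
    ∑ n' ∈ Ioc 0 K, gb M (((n : ℝ) - n') * α) ≤ M + 2 * ∑ d ∈ Ioc 0 K, gb M (d * α) := by
  rw [mem_Ioc] at hn
  have hsplit : Ioc 0 K = Ioo 0 n ∪ {n} ∪ Ioc n K := by
    ext x
    simp only [mem_union, mem_Ioc, mem_Ioo, mem_singleton]
    omega
  have d1 : Disjoint (Ioo 0 n ∪ {n}) (Ioc n K) := by
    rw [disjoint_left]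
    intro x
    simp only [mem_union, mem_Ioc, mem_Ioo, mem_singleton]
    omega
  have d2 : Disjoint (Ioo 0 n) {n} := by
    rw [disjoint_left]
    intro x
    simp only [mem_Ioo, mem_singleton]
    omega
  conv_lhs => rw [hsplit]
  rw [sum_union d1, sum_union d2, sum_singleton]
  have e1 : ∑ n' ∈ Ioo 0 n, gb M (((n : ℝ) - n') * α) ≤ ∑ d ∈ Ioc 0 K, gb M (d * α) := by
    have : ∑ n' ∈ Ioo 0 n, gb M (((n : ℝ) - n') * α) = ∑ d ∈ Ioo 0 n, gb M (d * α) := by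
      refine sum_bij' (fun x _ => n - x) (fun x _ => n - x) ?_ ?_ ?_ ?_ ?_
      · intro x hx; rw [mem_Ioo] at *; omega
      · intro x hx; rw [mem_Ioo] at *; omega
      · intro x hx; rw [mem_Ioo] at *; omega
      · intro x hx; rw [mem_Ioo] at *; omega
      · intro x hx
        rw [mem_Ioo] at hx
        rw [Nat.cast_sub hx.2.le]
    rw [this]
    refine sum_le_sum_of_subset_of_nonneg ?_ fun _ _ _ => gb_nonneg hM
    intro x hx
    rw [mem_Ioo] at hx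
    rw [mem_Ioc]
    omega
  have e2 : ∑ n' ∈ Ioc n K, gb M (((n : ℝ) - n') * α) ≤ ∑ d ∈ Ioc 0 K, gb M (d * α) := by
    have : ∑ n' ∈ Ioc n K, gb M (((n : ℝ) - n') * α) = ∑ d ∈ Ioc 0 (K - n), gb M (d * α) := by
      refine sum_bij' (fun x _ => x - n) (fun x _ => x + n) ?_ ?_ ?_ ?_ ?_
      · intro x hx; rw [mem_Ioc] at *; omega
      · intro x hx; rw [mem_Ioc] at *; omega
      · intro x hx; rw [mem_Ioc] at *; omega
      · intro x hx; rw [mem_Ioc] at *; omega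
      · intro x hx
        rw [mem_Ioc] at hx
        rw [Nat.cast_sub hx.1.le, ← gb_neg]
        congr 1
        ring
    rw [this]
    refine sum_le_sum_of_subset_of_nonneg ?_ fun _ _ _ => gb_nonneg hM
    intro x hx
    rw [mem_Ioc] at *
    omega
  have e3 : gb M (((n : ℝ) - n) * α) = M := by
    rw [sub_self, zero_mul, gb_zero]
  rw [e3]
  linarith

/-- va:3: the bilinear sum. -/
theorem bilinear : ∃ C : ℝ, 0 < C ∧ ∀ (α : ℝ) (a : ℤ) (q N M : ℕ) (x y : ℕ → ℝ), 0 < q →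
    0 < M → M ≤ N → IsCoprime a (q : ℤ) → |α - a / q| ≤ 1 / (q : ℝ) ^ 2 →
    ‖∑ m ∈ Ioc M (2 * M), ∑ n ∈ Ioc 0 (N / m), ((x m * y n : ℝ) : ℂ) * ee (m * n * α)‖ ^ 2 ≤
      C * (∑ m ∈ Ioc M (2 * M), x m ^ 2) * (∑ n ∈ Ioc 0 (N / M), y n ^ 2) *
        ((N : ℝ) / q + N / M + M + q) * (1 + Real.log q) := by
  obtain ⟨C, hC, hII⟩ := typeII_sum
  refine ⟨1 + 2 * C, by positivity, ?_⟩
  intro α a q N M x y hq hM hMN hcop hα
  set K := N / M with hK
  have hM1 : (1 : ℝ) ≤ M := by exact_mod_cast hM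
  have hq1 : (1 : ℝ) ≤ q := by exact_mod_cast hq
  have hlog : 0 ≤ Real.log q := Real.log_nonneg hq1
  set T : ℕ → ℂ := fun m => ∑ n ∈ Ioc 0 (N / m), (y n : ℂ) * ee (m * n * α) with hT
  -- Cauchy
  have h1 : ‖∑ m ∈ Ioc M (2 * M), ∑ n ∈ Ioc 0 (N / m), ((x m * y n : ℝ) : ℂ) *
      ee (m * n * α)‖ ^ 2 ≤ (∑ m ∈ Ioc M (2 * M), x m ^ 2) * ∑ m ∈ Ioc M (2 * M), ‖T m‖ ^ 2 := by
    have e : ∑ m ∈ Ioc M (2 * M), ∑ n ∈ Ioc 0 (N / m), ((x m * y n : ℝ) : ℂ) * ee (m * n * α) =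
        ∑ m ∈ Ioc M (2 * M), (x m : ℂ) * T m := by
      refine sum_congr rfl fun m _ => ?_
      rw [hT, mul_sum]
      refine sum_congr rfl fun n _ => ?_
      push_cast
      ring
    rw [e]
    have h2 : ‖∑ m ∈ Ioc M (2 * M), (x m : ℂ) * T m‖ ≤ ∑ m ∈ Ioc M (2 * M), |x m| * ‖T m‖ := by
      refine (norm_sum_le _ _).trans (le_of_eq ?_)
      refine sum_congr rfl fun m _ => ?_
      rw [norm_mul, Complex.norm_real, Real.norm_eq_abs]
    calc _ ≤ (∑ m ∈ Ioc M (2 * M), |x m| * ‖T m‖) ^ 2 := pow_le_pow_left₀ (norm_nonneg _) h2 2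
      _ ≤ (∑ m ∈ Ioc M (2 * M), |x m| ^ 2) * ∑ m ∈ Ioc M (2 * M), ‖T m‖ ^ 2 :=
        sum_mul_sq_le_sq_mul_sq _ _ _
      _ = _ := by simp only [sq_abs]
  -- the second factor
  have hTe : ∀ m ∈ Ioc M (2 * M), T m = ∑ n ∈ Ioc 0 K, if n ≤ N / m then
      (y n : ℂ) * ee (m * n * α) else 0 := by
    intro m hm
    rw [mem_Ioc] at hm
    rw [hT, ← sum_filter]
    simp only
    congr 1
    ext n
    rw [mem_filter, mem_Ioc, mem_Ioc]
    have : N / m ≤ K := Nat.div_le_div_left hm.1.le hM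
    omega
  have h2 : ∑ m ∈ Ioc M (2 * M), ‖T m‖ ^ 2 ≤ ∑ n ∈ Ioc 0 K, ∑ n' ∈ Ioc 0 K,
      |y n| * |y n'| * gb M (((n : ℝ) - n') * α) := by
    have e1 : ((∑ m ∈ Ioc M (2 * M), ‖T m‖ ^ 2 : ℝ) : ℂ) = ∑ n ∈ Ioc 0 K, ∑ n' ∈ Ioc 0 K,
        (y n : ℂ) * (y n' : ℂ) * ∑ m ∈ Ioc M (2 * M), (if n ≤ N / m ∧ n' ≤ N / m then
          ee (m * ((n : ℝ) - n') * α) else 0) := by
      push_cast
      have e2 : ∀ m ∈ Ioc M (2 * M), ((‖T m‖ : ℂ)) ^ 2 = ∑ n ∈ Ioc 0 K, ∑ n' ∈ Ioc 0 K,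
          (y n : ℂ) * (y n' : ℂ) * (if n ≤ N / m ∧ n' ≤ N / m then
            ee (m * ((n : ℝ) - n') * α) else 0) := by
        intro m hm
        rw [← Complex.mul_conj', hTe m hm, map_sum, sum_mul_sum]
        refine sum_congr rfl fun n _ => sum_congr rfl fun n' _ => ?_
        by_cases c1 : n ≤ N / m <;> by_cases c2 : n' ≤ N / m
        · rw [if_pos c1, if_pos c2, if_pos ⟨c1, c2⟩, map_mul, Complex.conj_ofReal, ← h85_ee_neg]
          have : ee (m * ((n : ℝ) - n') * α) = ee (m * n * α) * ee (-(m * n' * α)) := by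
            rw [← h85_ee_add]; congr 1; ring
          rw [this]
          ring
        · rw [if_neg c2, _root_.map_zero,
            if_neg (fun h : n ≤ N / m ∧ n' ≤ N / m => c2 h.2)]; ring
        · rw [if_neg c1, if_neg (fun h : n ≤ N / m ∧ n' ≤ N / m => c1 h.1)]; ring
        · rw [if_neg c1, if_neg (fun h : n ≤ N / m ∧ n' ≤ N / m => c1 h.1)]; ring
      rw [sum_congr rfl e2, sum_comm]
      refine sum_congr rfl fun n _ => ?_
      rw [sum_comm]
      refine sum_congr rfl fun n' _ => ?_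
      rw [mul_sum]
    have e3 : (∑ m ∈ Ioc M (2 * M), ‖T m‖ ^ 2 : ℝ) =
        ‖((∑ m ∈ Ioc M (2 * M), ‖T m‖ ^ 2 : ℝ) : ℂ)‖ := by
      rw [Complex.norm_real, Real.norm_of_nonneg (sum_nonneg fun _ _ => by positivity)]
    rw [e3, e1]
    refine (norm_sum_le _ _).trans (sum_le_sum fun n hn => ?_)
    refine (norm_sum_le _ _).trans (sum_le_sum fun n' hn' => ?_)
    rw [norm_mul, norm_mul, Complex.norm_real, Complex.norm_real, Real.norm_eq_abs,
      Real.norm_eq_abs]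
    refine mul_le_mul_of_nonneg_left ?_ (by positivity)
    exact inner N M n n' (mem_Ioc.mp hn).1 (mem_Ioc.mp hn').1 α
  have h3 : ∑ n ∈ Ioc 0 K, ∑ n' ∈ Ioc 0 K, |y n| * |y n'| * gb M (((n : ℝ) - n') * α) ≤
      ∑ n ∈ Ioc 0 K, y n ^ 2 * ∑ n' ∈ Ioc 0 K, gb M (((n : ℝ) - n') * α) := by
    have e1 : ∀ n ∈ Ioc 0 K, ∀ n' ∈ Ioc 0 K, |y n| * |y n'| * gb M (((n : ℝ) - n') * α) ≤
        y n ^ 2 / 2 * gb M (((n : ℝ) - n') * α) + y n' ^ 2 / 2 * gb M (((n' : ℝ) - n) * α) := by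
      intro n _ n' _
      have g0 : 0 ≤ gb M (((n : ℝ) - n') * α) := gb_nonneg (Nat.cast_nonneg _)
      have g1 : gb M (((n' : ℝ) - n) * α) = gb M (((n : ℝ) - n') * α) := by
        rw [← gb_neg]; congr 1; ring
      rw [g1]
      have : |y n| * |y n'| ≤ y n ^ 2 / 2 + y n' ^ 2 / 2 := by
        rw [← sq_abs (y n), ← sq_abs (y n')]
        nlinarith [sq_nonneg (|y n| - |y n'|)]
      calc _ ≤ (y n ^ 2 / 2 + y n' ^ 2 / 2) * gb M (((n : ℝ) - n') * α) :=
            mul_le_mul_of_nonneg_right this g0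
        _ = _ := by ring
    calc _ ≤ ∑ n ∈ Ioc 0 K, ∑ n' ∈ Ioc 0 K, (y n ^ 2 / 2 * gb M (((n : ℝ) - n') * α) +
          y n' ^ 2 / 2 * gb M (((n' : ℝ) - n) * α)) :=
        sum_le_sum fun n hn => sum_le_sum fun n' hn' => e1 n hn n' hn'
      _ = ∑ n ∈ Ioc 0 K, ∑ n' ∈ Ioc 0 K, y n ^ 2 / 2 * gb M (((n : ℝ) - n') * α) +
          ∑ n ∈ Ioc 0 K, ∑ n' ∈ Ioc 0 K, y n ^ 2 / 2 * gb M (((n : ℝ) - n') * α) := by
        simp only [sum_add_distrib]
        congr 1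
        rw [sum_comm]
      _ = _ := by
        rw [← sum_add_distrib]
        refine sum_congr rfl fun n _ => ?_
        rw [mul_sum, ← sum_add_distrib]
        refine sum_congr rfl fun n' _ => ?_
        ring
  have hIIv := hII α a q K M hq hM1 hcop hα
  set G := ∑ d ∈ Ioc 0 K, gb M (d * α) with hG
  have h4 : ∑ n ∈ Ioc 0 K, y n ^ 2 * ∑ n' ∈ Ioc 0 K, gb M (((n : ℝ) - n') * α) ≤
      (∑ n ∈ Ioc 0 K, y n ^ 2) * (M + 2 * G) := by
    rw [sum_mul]
    refine sum_le_sum fun n hn => ?_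
    exact mul_le_mul_of_nonneg_left (row K n hn M α (Nat.cast_nonneg _)) (by positivity)
  have hKN : (K : ℝ) ≤ N / M := Nat.cast_div_le
  have h5 : (M : ℝ) + 2 * G ≤ (1 + 2 * C) * (((N : ℝ) / q + N / M + M + q) * (1 + Real.log q)) := by
    have a1 : ((K : ℝ) / q + 1) * (M + q * (1 + Real.log q)) ≤
        ((N : ℝ) / q + N / M + M + q) * (1 + Real.log q) := by
      have b1 : (K : ℝ) * M ≤ N := by
        have : K * M ≤ N := Nat.div_mul_le_self N M
        exact_mod_cast this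
      have e : ((K : ℝ) / q + 1) * (M + q * (1 + Real.log q)) =
          (K * M) / q + K * (1 + Real.log q) + M + q * (1 + Real.log q) := by
        field_simp
        ring
      rw [e]
      have b2 : (K * M : ℝ) / q ≤ N / q * (1 + Real.log q) := by
        have : (K * M : ℝ) / q ≤ N / q := by gcongr
        have h0 : (0 : ℝ) ≤ N / q := by positivity
        nlinarith
      have b3 : (K : ℝ) * (1 + Real.log q) ≤ N / M * (1 + Real.log q) :=
        mul_le_mul_of_nonneg_right hKN (by positivity)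
      have b4 : (M : ℝ) ≤ M * (1 + Real.log q) := by nlinarith
      nlinarith
    have a2 : (M : ℝ) ≤ ((N : ℝ) / q + N / M + M + q) * (1 + Real.log q) := by
      have b1 : (0 : ℝ) ≤ N / q + N / M + q := by positivity
      have b2 : (0 : ℝ) ≤ M := by positivity
      nlinarith [mul_nonneg b1 hlog, mul_nonneg b2 hlog]
    have a3 : G ≤ C * (((K : ℝ) / q + 1) * (M + q * (1 + Real.log q))) := by
      rw [← mul_assoc]; exact hIIv
    have a4 := mul_le_mul_of_nonneg_left a1 hC.le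
    nlinarith
  have hx0 : 0 ≤ ∑ m ∈ Ioc M (2 * M), x m ^ 2 := sum_nonneg fun _ _ => sq_nonneg _
  have hy0 : 0 ≤ ∑ n ∈ Ioc 0 K, y n ^ 2 := sum_nonneg fun _ _ => sq_nonneg _
  calc _ ≤ (∑ m ∈ Ioc M (2 * M), x m ^ 2) * ∑ m ∈ Ioc M (2 * M), ‖T m‖ ^ 2 := h1
    _ ≤ (∑ m ∈ Ioc M (2 * M), x m ^ 2) * ((∑ n ∈ Ioc 0 K, y n ^ 2) *
          ((1 + 2 * C) * (((N : ℝ) / q + N / M + M + q) * (1 + Real.log q)))) := by
        refine mul_le_mul_of_nonneg_left ?_ hx0
        exact (h2.trans h3).trans (h4.trans (mul_le_mul_of_nonneg_left h5 hy0))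
    _ = _ := by ring

end Pool.Agent.helper74.TG
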